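import Mathlib

open PowerSeries

namespace Pool.Agent.Helper42.Miller

/-- `q d/dq` on power series. -/
noncomputable def th (φ : PowerSeries ℚ) : PowerSeries ℚ := X * derivative ℚ φ

lemma coeff_th (φ : PowerSeries ℚ) (n : ℕ) : coeff n (th φ) = n * coeff n φ := by
  unfold th
  cases n with
  | zero => simp
  | succ n =>
    rw [coeff_succ_X_mul, coeff_derivative]
    push_cast
    ring

lemma th_mul (a b : PowerSeries ℚ) : th (a * b) = a * th b + b * th a := by
  unfold th
  rw [Derivation.leibniz]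
  simp only [smul_eq_mul]
  ring

lemma th_pow (a : PowerSeries ℚ) (n : ℕ) : th (a ^ n) = n * a ^ (n - 1) * th a := by
  unfold th
  rw [Derivation.leibniz_pow]
  simp only [smul_eq_mul, nsmul_eq_mul]
  ring

lemma th_X : th (X : PowerSeries ℚ) = X := by
  unfold th
  rw [derivative_X, mul_one]

lemma th_sub (a b : PowerSeries ℚ) : th (a - b) = th a - th b := by
  unfold th
  rw [map_sub, mul_sub]

lemma th_one : th (1 : PowerSeries ℚ) = 0 := by
  unfold th
  simp

/-- The key vanishing lemma (a truncated form of `E₆ E₄^(3 i - 1) / Δ ^ i` being a derivative). -/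
theorem coeff_vanish {N : ℕ} {e4 e6 u v w : PowerSeries ℚ} (huv : u * v = 1) (hw : e4 * w = 1)
    (h1 : (1728 : PowerSeries ℚ) * (X * u) = e4 ^ 3 - e6 ^ 2)
    (h2 : (X : PowerSeries ℚ) ^ (N + 1) ∣
      (3 * e6 * th e4 - 2 * e4 * th e6) - (e4 ^ 3 - e6 ^ 2))
    {i : ℕ} (hi : 1 ≤ i) (hiN : i < N) : coeff i (e6 * w * (e4 ^ 3 * v) ^ i) = 0 := by
  set A := 3 * th e4 * (X * u) - e4 * th (X * u) + (X * u) * e6 with hA
  set B := 3 * th e4 * u - e4 * (u + th u) + u * e6 with hB
  have hAB : A = X * B := by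
    rw [hA, hB, th_mul, th_X]
    ring
  have h1728 : IsUnit (1728 : PowerSeries ℚ) := by
    have : (1728 : PowerSeries ℚ) = C (1728 : ℚ) := (map_ofNat C 1728).symm
    rw [this]
    exact (isUnit_iff_ne_zero.mpr (by norm_num : (1728 : ℚ) ≠ 0)).map C
  have hthX : (1728 : PowerSeries ℚ) * th (X * u) = 3 * e4 ^ 2 * th e4 - 2 * e6 * th e6 := by
    have : th ((1728 : PowerSeries ℚ) * (X * u)) = (1728 : PowerSeries ℚ) * th (X * u) := by
      have e : (1728 : PowerSeries ℚ) = C (1728 : ℚ) := (map_ofNat C 1728).symm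
      rw [th_mul, e]
      unfold th
      simp
    rw [← this, h1, th_sub, th_pow, th_pow]
    norm_num
  have hA2 : (1728 : PowerSeries ℚ) * A =
      -e6 * ((3 * e6 * th e4 - 2 * e4 * th e6) - (e4 ^ 3 - e6 ^ 2)) := by
    rw [hA]
    linear_combination (3 * th e4 + e6) * h1 - e4 * hthX
  have hA3 : (X : PowerSeries ℚ) ^ (N + 1) ∣ A := by
    rw [← h1728.dvd_mul_left, hA2]
    exact Dvd.dvd.mul_left h2 _
  have hB3 : (X : PowerSeries ℚ) ^ N ∣ B := by
    rw [hAB, pow_succ, mul_comm (X ^ N) X] at hA3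
    exact (mul_dvd_mul_iff_left X_ne_zero).mp hA3
  set J := e4 ^ 3 * v with hJ
  have hthv : th v = - v ^ 2 * th u := by
    have h := th_mul u v
    rw [huv, th_one] at h
    have h3 : v * (u * th v) = v * (-(v * th u)) := by linear_combination -v * h
    calc th v = (u * v) * th v := by rw [huv, one_mul]
      _ = v * (u * th v) := by ring
      _ = v * (-(v * th u)) := h3
      _ = _ := by ring
  have hthJ : th J = 3 * e4 ^ 2 * th e4 * v + e4 ^ 3 * th v := by
    rw [hJ, th_mul, th_pow]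
    norm_num
    ring
  have hdiv : (X : PowerSeries ℚ) ^ N ∣ (J - th J - e4 ^ 2 * e6 * v) := by
    have : J - th J - e4 ^ 2 * e6 * v = -v ^ 2 * e4 ^ 2 * B := by
      rw [hthJ, hthv, hJ, hB]
      linear_combination (-(v * e4 ^ 3) + 3 * e4 ^ 2 * th e4 * v + e4 ^ 2 * e6 * v) * huv
    rw [this]
    exact Dvd.dvd.mul_left hB3 _
  have hR : e6 * w * J = e4 ^ 2 * e6 * v := by
    rw [hJ]
    linear_combination (e6 * e4 ^ 2 * v) * hw
  obtain ⟨j, rfl⟩ : ∃ j, i = j + 1 := ⟨i - 1, by omega⟩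
  have hdiv2 : (X : PowerSeries ℚ) ^ N ∣
      ((j + 1 : ℕ) : PowerSeries ℚ) * J ^ (j + 1) - th (J ^ (j + 1)) -
        ((j + 1 : ℕ) : PowerSeries ℚ) * (e6 * w * J ^ (j + 1)) := by
    have : ((j + 1 : ℕ) : PowerSeries ℚ) * J ^ (j + 1) - th (J ^ (j + 1)) -
        ((j + 1 : ℕ) : PowerSeries ℚ) * (e6 * w * J ^ (j + 1)) =
        ((j + 1 : ℕ) : PowerSeries ℚ) * J ^ j * (J - th J - e4 ^ 2 * e6 * v) := by
      rw [th_pow, ← hR]
      simp only [Nat.add_sub_cancel]
      ring
    rw [this]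
    exact Dvd.dvd.mul_left hdiv _
  have h5 := X_pow_dvd_iff.mp hdiv2 (j + 1) hiN
  have hcast : ((j + 1 : ℕ) : PowerSeries ℚ) = C ((j + 1 : ℕ) : ℚ) := by simp
  rw [map_sub, map_sub, coeff_th, hcast, coeff_C_mul, coeff_C_mul] at h5
  have h6 : ((j + 1 : ℕ) : ℚ) * coeff (j + 1) (e6 * w * J ^ (j + 1)) = 0 := by linarith
  rcases mul_eq_zero.mp h6 with h7 | h7
  · exfalso
    have : ((j + 1 : ℕ) : ℚ) ≠ 0 := by positivity
    exact this h7
  · exact h7

/-- dot product of two lists (up to the shorter length) -/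
def dot : List ℤ → List ℤ → ℤ
  | a :: as, b :: bs => a * b + dot as bs
  | _, _ => 0

def mulGo (a : List ℤ) : List ℤ → List ℤ → List ℤ
  | [], _ => []
  | b :: bs, rb => dot a (b :: rb) :: mulGo a bs (b :: rb)

/-- product of truncated power series given by lists (length of `b`). -/
def mulL (a b : List ℤ) : List ℤ := mulGo a b []

lemma dot_eq (a c : List ℤ) : dot a c = ∑ i ∈ Finset.range c.length, a.getD i 0 * c.getD i 0 := by
  induction a generalizing c with
  | nil => simp [dot]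
  | cons x as ih =>
    cases c with
    | nil => simp [dot]
    | cons y bs =>
      simp only [dot, ih, List.length_cons, Finset.sum_range_succ', List.getD_cons_succ,
        List.getD_cons_zero]
      ring

lemma mulGo_length (a b rb : List ℤ) : (mulGo a b rb).length = b.length := by
  induction b generalizing rb with
  | nil => simp [mulGo]
  | cons y bs ih => simp [mulGo, ih]

lemma mulGo_getD (a b rb : List ℤ) (n : ℕ) (hn : n < b.length) :
    (mulGo a b rb).getD n 0 = dot a ((b.take (n + 1)).reverse ++ rb) := by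
  induction b generalizing rb n with
  | nil => simp at hn
  | cons y bs ih =>
    cases n with
    | zero => simp [mulGo]
    | succ n =>
      simp only [mulGo, List.getD_cons_succ]
      rw [ih _ _ (by simpa using hn)]
      simp

/-- the list `l` gives the first `N` coefficients of `φ`. -/
def Apx (N : ℕ) (φ : PowerSeries ℚ) (l : List ℤ) : Prop :=
  l.length = N ∧ ∀ n < N, coeff n φ = ((l.getD n 0 : ℤ) : ℚ)

lemma Apx.mul {N : ℕ} {φ ψ : PowerSeries ℚ} {a b : List ℤ} (ha : Apx N φ a) (hb : Apx N ψ b) :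
    Apx N (φ * ψ) (mulL a b) := by
  refine ⟨by rw [mulL, mulGo_length, hb.1], fun n hn => ?_⟩
  rw [mulL, mulGo_getD _ _ _ _ (by rw [hb.1]; exact hn), List.append_nil, dot_eq, coeff_mul,
    Finset.Nat.sum_antidiagonal_eq_sum_range_succ (fun i j => coeff i φ * coeff j ψ)]
  have hlen : ((b.take (n + 1)).reverse).length = n + 1 := by
    rw [List.length_reverse, List.length_take, hb.1]
    omega
  rw [hlen]
  push_cast
  refine Finset.sum_congr rfl fun i hi => ?_
  have hi' : i < n + 1 := Finset.mem_range.mp hi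
  rw [ha.2 i (by omega), hb.2 (n - i) (by omega)]
  congr 2
  have h1 : i < ((b.take (n + 1)).reverse).length := by omega
  have h2 : n - i < b.length := by rw [hb.1]; omega
  rw [List.getD_eq_getElem _ _ h1, List.getD_eq_getElem _ _ h2, List.getElem_reverse,
    List.getElem_take]
  congr 1
  rw [List.length_take, hb.1]
  omega

lemma Apx.one (N : ℕ) : Apx N 1 ((List.range N).map (fun n => if n = 0 then 1 else 0)) := by
  refine ⟨by simp, fun n hn => ?_⟩
  rw [List.getD_eq_getElem _ _ (by simpa using hn)]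
  simp [coeff_one]

def smulL (c : ℤ) (l : List ℤ) : List ℤ := l.map (fun x => c * x)

lemma Apx.smul {N : ℕ} {φ : PowerSeries ℚ} {a : List ℤ} (c : ℤ) (ha : Apx N φ a) :
    Apx N ((c : PowerSeries ℚ) * φ) (smulL c a) := by
  refine ⟨by simp [smulL, ha.1], fun n hn => ?_⟩
  have hn' : n < a.length := by rw [ha.1]; exact hn
  have : (c : PowerSeries ℚ) = C (R := ℚ) (c : ℚ) := (map_intCast (C (R := ℚ)) c).symm
  have h1 : n < (a.map (fun x => c * x)).length := by simpa using hn'
  rw [this, coeff_C_mul, ha.2 n hn, smulL, List.getD_eq_getElem _ _ h1,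
    List.getD_eq_getElem _ _ hn', List.getElem_map]
  push_cast
  ring

def subL (a b : List ℤ) : List ℤ := List.zipWith (fun x y => x - y) a b

lemma Apx.sub {N : ℕ} {φ ψ : PowerSeries ℚ} {a b : List ℤ} (ha : Apx N φ a) (hb : Apx N ψ b) :
    Apx N (φ - ψ) (subL a b) := by
  refine ⟨by simp [subL, ha.1, hb.1], fun n hn => ?_⟩
  have hn1 : n < a.length := by rw [ha.1]; exact hn
  have hn2 : n < b.length := by rw [hb.1]; exact hn
  rw [map_sub, ha.2 n hn, hb.2 n hn, subL, List.getD_eq_getElem _ _ hn1,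
    List.getD_eq_getElem _ _ hn2, List.getD_eq_getElem _ _ (by simp; omega), List.getElem_zipWith]
  push_cast
  ring

def thetaL (l : List ℤ) : List ℤ := (l.zipIdx).map (fun p => p.1 * p.2)

lemma Apx.theta {N : ℕ} {φ : PowerSeries ℚ} {a : List ℤ} (ha : Apx N φ a) :
    Apx N (th φ) (thetaL a) := by
  refine ⟨by simp [thetaL, ha.1], fun n hn => ?_⟩
  have hn1 : n < a.length := by rw [ha.1]; exact hn
  rw [coeff_th, ha.2 n hn, thetaL, List.getD_eq_getElem _ _ hn1,
    List.getD_eq_getElem _ _ (by simpa using hn1)]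
  simp
  ring

lemma Apx.take {N M : ℕ} {φ : PowerSeries ℚ} {a : List ℤ} (ha : Apx N φ a) (hM : M ≤ N) :
    Apx M φ (a.take M) := by
  refine ⟨by simp [ha.1, hM], fun n hn => ?_⟩
  have hn1 : n < a.length := by rw [ha.1]; omega
  rw [ha.2 n (by omega), List.getD_eq_getElem _ _ hn1, List.getD_eq_getElem _ _ (by simp; omega),
    List.getElem_take]

lemma Apx.dvd {N : ℕ} {φ ψ : PowerSeries ℚ} {a : List ℤ} (ha : Apx N φ a) (hb : Apx N ψ a) :
    (X : PowerSeries ℚ) ^ N ∣ φ - ψ := by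
  rw [X_pow_dvd_iff]
  intro n hn
  rw [map_sub, ha.2 n hn, hb.2 n hn, sub_self]


/-! ### The concrete series -/

open ArithmeticFunction in
/-- q-expansion of `E₄`, over `ℚ`. -/
noncomputable def e4 : PowerSeries ℚ := mk fun n => if n = 0 then 1 else 240 * (sigma 3 n : ℚ)

open ArithmeticFunction in
/-- q-expansion of `E₆`, over `ℚ`. -/
noncomputable def e6 : PowerSeries ℚ := mk fun n => if n = 0 then 1 else -504 * (sigma 5 n : ℚ)

def sig (k n : ℕ) : ℤ := ((List.range n).map (fun d => if n % (d+1) = 0 then ((d+1)^k : ℤ) else 0)).sum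

lemma sig_eq (k n : ℕ) : sig k n = (ArithmeticFunction.sigma k n : ℤ) := by
  have h1 : sig k n = ∑ d ∈ Finset.range n, if n % (d+1) = 0 then (((d : ℤ)+1)^k : ℤ) else 0 := rfl
  rw [h1, ArithmeticFunction.sigma_apply, Nat.divisors, Finset.sum_filter, Finset.sum_Ico_eq_sum_range]
  push_cast
  refine Finset.sum_congr rfl fun d _ => ?_
  simp only [Nat.dvd_iff_mod_eq_zero, add_comm 1 d, add_comm (1 : ℤ) (d : ℤ)]

def L4 (N : ℕ) : List ℤ := (List.range N).map (fun n => if n = 0 then 1 else 240 * sig 3 n)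
def L6 (N : ℕ) : List ℤ := (List.range N).map (fun n => if n = 0 then 1 else -504 * sig 5 n)

lemma apx_e4 (N : ℕ) : Apx N e4 (L4 N) := by
  refine ⟨by simp [L4], fun n hn => ?_⟩
  rw [L4, List.getD_eq_getElem _ _ (by simpa using hn), List.getElem_map, List.getElem_range, e4,
    coeff_mk, sig_eq]
  split_ifs <;> push_cast <;> rfl

lemma apx_e6 (N : ℕ) : Apx N e6 (L6 N) := by
  refine ⟨by simp [L6], fun n hn => ?_⟩
  rw [L6, List.getD_eq_getElem _ _ (by simpa using hn), List.getElem_map, List.getElem_range, e6,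
    coeff_mk, sig_eq]
  split_ifs <;> push_cast <;> rfl

def cubeL (l : List ℤ) := mulL (mulL l l) l
def D0 (N : ℕ) : List ℤ := (subL (cubeL (L4 N)) (mulL (L6 N) (L6 N)))
def RC (N : ℕ) : List ℤ :=
  subL (smulL 3 (mulL (L6 N) (thetaL (L4 N)))) (smulL 2 (mulL (L4 N) (thetaL (L6 N))))

lemma apx_D0 (N : ℕ) : Apx N (e4 ^ 3 - e6 ^ 2) (D0 N) := by
  have h := (((apx_e4 N).mul (apx_e4 N)).mul (apx_e4 N)).sub ((apx_e6 N).mul (apx_e6 N))
  have e : e4 ^ 3 - e6 ^ 2 = e4 * e4 * e4 - e6 * e6 := by ring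
  rw [e]
  exact h

lemma apx_RC (N : ℕ) : Apx N (3 * e6 * th e4 - 2 * e4 * th e6) (RC N) := by
  have h := (((apx_e6 N).mul (apx_e4 N).theta).smul 3).sub (((apx_e4 N).mul (apx_e6 N).theta).smul 2)
  have e : 3 * e6 * th e4 - 2 * e4 * th e6 = ((3 : ℤ) : PowerSeries ℚ) * (e6 * th e4) -
    ((2 : ℤ) : PowerSeries ℚ) * (e4 * th e6) := by push_cast; ring
  rw [e]
  exact h

set_option maxRecDepth 100000 in
lemma RC_eq : RC 114 = D0 114 := by decide +kernel

lemma dvd_RC : (X : PowerSeries ℚ) ^ (113 + 1) ∣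
      (3 * e6 * th e4 - 2 * e4 * th e6) - (e4 ^ 3 - e6 ^ 2) := by
  have h1 := apx_RC 114
  have h2 := apx_D0 114
  rw [RC_eq] at h1
  exact h1.dvd h2

/-- `Δ / q` as a rational power series. -/
noncomputable def u : PowerSeries ℚ := mk fun n => coeff (n + 1) (e4 ^ 3 - e6 ^ 2) / 1728

lemma coeff0_e4 : constantCoeff e4 = 1 := by
  rw [← coeff_zero_eq_constantCoeff_apply, e4, coeff_mk]; simp

lemma coeff0_e6 : constantCoeff e6 = 1 := by
  rw [← coeff_zero_eq_constantCoeff_apply, e6, coeff_mk]; simp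

lemma u_spec : (1728 : PowerSeries ℚ) * (X * u) = e4 ^ 3 - e6 ^ 2 := by
  have e : (1728 : PowerSeries ℚ) = C (1728 : ℚ) := (map_ofNat C 1728).symm
  ext n
  rw [e, coeff_C_mul]
  cases n with
  | zero => simp [coeff0_e4, coeff0_e6]
  | succ n =>
    rw [coeff_succ_X_mul, u, coeff_mk]
    field_simp

def U (N : ℕ) : List ℤ := ((D0 N).drop 1).map (fun x => x / 1728)

set_option maxRecDepth 100000 in
lemma U_check : smulL 1728 (0 :: U 114) = D0 114 := by decide +kernel

lemma apx_u : Apx 113 u (U 114) := by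
  have h1 := apx_D0 114
  rw [← U_check] at h1
  refine ⟨?_, fun n hn => ?_⟩
  · have := h1.1
    simpa [smulL] using this
  · have h2 := h1.2 (n + 1) (by omega)
    have hl : (U 114).length = 113 := by
      have := h1.1
      simpa [smulL] using this
    rw [u, coeff_mk, h2, smulL, List.getD_eq_getElem _ _ (by simp; omega), List.getElem_map,
      List.getElem_cons_succ, List.getD_eq_getElem _ _ (by omega)]
    push_cast
    field_simp

lemma coeff0_u : constantCoeff u = 1 := by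
  rw [← coeff_zero_eq_constantCoeff_apply, apx_u.2 0 (by norm_num)]
  have : (U 114).getD 0 0 = 1 := by decide +kernel
  rw [this]
  norm_num

def sqL (l : List ℤ) := mulL l l

lemma Apx.sq {N : ℕ} {φ : PowerSeries ℚ} {a : List ℤ} (ha : Apx N φ a) : Apx N (φ ^ 2) (sqL a) := by
  rw [pow_two]
  exact ha.mul ha

def U304 : List ℤ :=
  sqL (sqL (sqL (sqL (mulL (sqL (sqL (sqL (sqL (U 114))))) (mulL (U 114) (sqL (U 114)))))))

lemma apx_u304 : Apx 113 (u ^ 304) U304 := by
  have e : u ^ 304 = (((((((u ^ 2) ^ 2) ^ 2) ^ 2 * (u * u ^ 2)) ^ 2) ^ 2) ^ 2) ^ 2 := by ring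
  rw [e]
  unfold U304
  exact (((apx_u.sq.sq.sq.sq.mul (apx_u.mul apx_u.sq)).sq).sq).sq.sq

def invGo (a : List ℤ) : ℕ → List ℤ → List ℤ
  | 0, r => r
  | n+1, r => invGo a n ((- dot (a.drop 1) r) :: r)

def invL (a : List ℤ) : List ℤ := (invGo a (a.length - 1) [1]).reverse

/-- the coefficients of `E₆ / (E₄ (Δ/q)^304)`. -/
def Wl : List ℤ := mulL (mulL (L6 113) (invL (L4 113))) (invL U304)

set_option maxRecDepth 100000 in
lemma Wl_check : mulL (mulL Wl (L4 113)) U304 = L6 113 := by decide +kernel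

set_option maxRecDepth 100000 in
lemma Wl_neg : Wl.getD 112 0 < 0 := by decide +kernel

set_option maxRecDepth 100000 in
lemma Wl_length : Wl.length = 113 := by decide +kernel

/-- The decisive coefficient is negative. -/
theorem coeff_W_neg {v w : PowerSeries ℚ} (huv : u * v = 1) (hw : e4 * w = 1) :
    coeff 112 (e6 * w * v ^ 304) < 0 := by
  set φ : PowerSeries ℚ := mk fun n => ((Wl.getD n 0 : ℤ) : ℚ) with hφ
  have h1 : Apx 113 φ Wl := ⟨Wl_length, fun n _ => by rw [hφ, coeff_mk]⟩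
  have h2 := (h1.mul (apx_e4 113)).mul apx_u304
  rw [Wl_check] at h2
  have h3 := h2.dvd (apx_e6 113)
  have h4 : (X : PowerSeries ℚ) ^ 113 ∣ φ - e6 * w * v ^ 304 := by
    have e : φ - e6 * w * v ^ 304 = (w * v ^ 304) * (φ * e4 * u ^ 304 - e6) := by
      have e1 : u ^ 304 * v ^ 304 = 1 := by rw [← mul_pow, huv, one_pow]
      linear_combination (-φ * e4 * w) * e1 - φ * hw
    rw [e]
    exact Dvd.dvd.mul_left h3 _
  have h5 := X_pow_dvd_iff.mp h4 112 (by norm_num)
  rw [map_sub, hφ, coeff_mk] at h5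
  have h6 : ((Wl.getD 112 0 : ℤ) : ℚ) < 0 := by exact_mod_cast Wl_neg
  linarith

end Pool.Agent.Helper42.Miller
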